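import Mathlib

namespace Pool.Agent.Results.MP_b9e574_gt.StrongGamma

open Filter Set

variable {X : Type*} [TopologicalSpace X]

/-- `C` is an open `n`-cover of `X` that does not have `X` as a member -/
def IsNCover (n : ℕ) (C : Set (Set X)) : Prop :=
  (∀ U ∈ C, IsOpen U) ∧ univ ∉ C ∧ ⋃₀ C = univ ∧
    ∀ F : Finset X, F.card = n → ∃ U ∈ C, (F : Set X) ⊆ U

/-- every point lies in all but finitely many `u n` -/
def IsGamma (u : ℕ → Set X) : Prop := ∀ x, ∀ᶠ n in atTop, x ∈ u n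

/-- the selection principle; index `n` stands for inning `n + 1` -/
def IsStrongGamma (X : Type*) [TopologicalSpace X] : Prop :=
  ∀ C : ℕ → Set (Set X), (∀ n, IsNCover (n + 1) (C n)) →
    ∃ u : ℕ → Set X, (∀ n, u n ∈ C n) ∧ IsGamma u

/-- the first `n` moves of TWO, latest first -/
def hist (u : ℕ → Set X) : ℕ → List (Set X)
  | 0 => []
  | n + 1 => u n :: hist u n

/-- each move of TWO in the list is a member of the family ONE had just played -/
def Legal (σ : List (Set X) → Set (Set X)) : List (Set X) → Prop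
  | [] => True
  | U :: h => U ∈ σ h ∧ Legal σ h

/-- `σ` is a winning strategy of ONE -/
def OneWins (σ : List (Set X) → Set (Set X)) : Prop :=
  (∀ h, Legal σ h → IsNCover (h.length + 1) (σ h)) ∧
    ∀ u : ℕ → Set X, (∀ n, u n ∈ σ (hist u n)) → ¬ IsGamma u

lemma select [Infinite X] (hX : IsStrongGamma X) {α : Type*} (P : ℕ → α → Prop)
    (V : ℕ → α → Set X) (k : ℕ → ℕ) (hk : Tendsto k atTop atTop)
    (ho : ∀ n a, P n a → IsOpen (V n a))
    (hc : ∀ n (F : Finset X), F.card ≤ k n → ∃ a, P n a ∧ (F : Set X) ⊆ V n a) :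
    ∃ a : ℕ → α, (∀ n, P n (a n)) ∧ IsGamma fun n => V n (a n) := by
  classical
  let B : Set ℕ := {n | ¬ ∃ a, P n a ∧ V n a = univ}
  have h0 : ∀ n, ∃ a, P n a ∧ (n ∉ B → V n a = univ) := fun n => by
    by_cases hn : n ∈ B
    · obtain ⟨a, ha, -⟩ := hc n ∅ (by simp)
      exact ⟨a, ha, fun h => absurd hn h⟩
    · obtain ⟨a, ha, h⟩ := not_not.1 hn
      exact ⟨a, ha, fun _ => h⟩
  choose a0 ha0 hb0 using h0
  by_cases hB : ∃ᶠ n in atTop, n ∈ B
  swap
  · refine ⟨a0, ha0, fun x => ?_⟩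
    filter_upwards [not_frequently.1 hB] with n hn
    rw [hb0 n hn]; trivial
  have h1 : ∀ j, ∃ b ∈ B, j + 1 ≤ k b := fun j =>
    (hB.and_eventually (hk.eventually_ge_atTop (j + 1))).exists
  choose b hb hkb using h1
  have hfin : ∀ j, {n | k n = j + 1 ∨ n = b j}.Finite := fun j => by
    refine Finite.union ?_ (finite_singleton (b j))
    have := hk.eventually_gt_atTop (j + 1)
    rw [← Nat.cofinite_eq_atTop, eventually_cofinite] at this
    exact this.subset fun n (hn : k n = j + 1) => by simp [hn]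
  have hcov : ∀ j (F : Finset X), F.card ≤ j + 1 → ∃ c : ℕ → α, (∀ n, P n (c n)) ∧
      (F : Set X) ⊆ ⋂ n ∈ {n | k n = j + 1 ∨ n = b j}, V n (c n) := fun j F hF => by
    have : ∀ n, ∃ a, P n a ∧ (j + 1 ≤ k n → (F : Set X) ⊆ V n a) := fun n => by
      by_cases hn : j + 1 ≤ k n
      · obtain ⟨a, ha, h⟩ := hc n F (hF.trans hn)
        exact ⟨a, ha, fun _ => h⟩
      · exact ⟨a0 n, ha0 n, fun h => absurd h hn⟩
    choose c h1 h2 using this
    refine ⟨c, h1, subset_iInter₂ fun n hn => h2 n ?_⟩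
    rcases hn with h | rfl
    · exact h.ge
    · exact hkb j
  obtain ⟨u, hu, hg⟩ := hX (fun j => {U | ∃ c : ℕ → α, (∀ n, P n (c n)) ∧
      U = ⋂ n ∈ {n | k n = j + 1 ∨ n = b j}, V n (c n)}) fun j => by
    refine ⟨?_, ?_, ?_, fun F hF => ?_⟩
    · rintro _ ⟨c, hc, rfl⟩
      exact (hfin j).isOpen_biInter fun n _ => ho n _ (hc n)
    · rintro ⟨c, hc, h⟩
      refine hb j ⟨c (b j), hc _, univ_subset_iff.1 ?_⟩
      rw [h]
      exact biInter_subset_of_mem (Or.inr rfl)
    · refine eq_univ_of_forall fun x => ?_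
      obtain ⟨c, h1, h2⟩ := hcov j {x} (by simp)
      exact ⟨_, ⟨c, h1, rfl⟩, h2 (by simp)⟩
    · obtain ⟨c, h1, h2⟩ := hcov j F hF.le
      exact ⟨_, ⟨c, h1, rfl⟩, h2⟩
  choose c hc1 hc2 using hu
  refine ⟨fun n => c (k n - 1) n, fun n => hc1 _ _, fun x => ?_⟩
  obtain ⟨J, hJ⟩ := eventually_atTop.1 (hg x)
  filter_upwards [hk.eventually_ge_atTop (J + 1)] with n hn
  have := hJ (k n - 1) (by omega)
  rw [hc2] at this
  exact mem_iInter₂.1 this n (Or.inl (by omega))

lemma fatten {α : Type*} (P : α → Prop) (V : α → Set X) (k : ℕ) (ho : ∀ a, P a → IsOpen (V a))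
    (hc : ∀ F : Finset X, F.card ≤ k → ∃ a, P a ∧ (F : Set X) ⊆ V a) (E : Finset X) :
    ∃ W : Set X, IsOpen W ∧ (E : Set X) ⊆ W ∧ ∃ S : Set α, S.Finite ∧
      ∀ F : Finset X, (F : Set X) ⊆ W → F.card ≤ k → ∃ a ∈ S, P a ∧ (F : Set X) ⊆ V a := by
  classical
  choose a h1 h2 using hc
  let T : Set {A : Finset X // A.card ≤ k} := {A | A.1 ⊆ E}
  have hT : T.Finite :=
    Finite.preimage Subtype.val_injective.injOn (E.powerset.finite_toSet.subset
      (fun A hA => by simpa using hA) : {A : Finset X | A ⊆ E}.Finite)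
  refine ⟨⋃ x ∈ E, ⋂ A ∈ {A ∈ T | x ∈ A.1}, V (a A.1 A.2), isOpen_biUnion fun x _ =>
    (hT.subset (sep_subset _ _)).isOpen_biInter fun A _ => ho _ (h1 _ _), fun x hx =>
    mem_biUnion hx (mem_iInter₂.2 fun A hA => h2 _ _ hA.2), _, hT.image fun A => a A.1 A.2,
    fun F hF hk => ?_⟩
  have : ∀ y : F, ∃ x ∈ E, y.1 ∈ ⋂ A ∈ {A ∈ T | x ∈ A.1}, V (a A.1 A.2) := fun y => by
    simpa only [mem_iUnion, exists_prop] using hF y.2
  choose φ h3 h4 using this
  let A : {A : Finset X // A.card ≤ k} := ⟨Finset.univ.image φ,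
    Finset.card_image_le.trans (by simpa using hk)⟩
  have hA : A ∈ T := fun x hx => by
    obtain ⟨y, -, rfl⟩ := Finset.mem_image.1 hx
    exact h3 y
  exact ⟨_, ⟨A, hA, rfl⟩, h1 _ _, fun y hy => mem_iInter₂.1 (h4 ⟨y, hy⟩) A
    ⟨hA, Finset.mem_image_of_mem _ (Finset.mem_univ _)⟩⟩

lemma countable_sub [Infinite X] (hX : IsStrongGamma X) {k : ℕ} {C : Set (Set X)}
    (hC : IsNCover k C) : ∃ e : ℕ → Set X, (∀ i, e i ∈ C) ∧
      ∀ F : Finset X, F.card ≤ k → ∃ i, (F : Set X) ⊆ e i := by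
  have hc : ∀ F : Finset X, F.card ≤ k → ∃ U, U ∈ C ∧ (F : Set X) ⊆ id U := fun F hF => by
    obtain ⟨G, h1, h2⟩ := Infinite.exists_superset_card_eq F k hF
    obtain ⟨U, h3, h4⟩ := hC.2.2.2 G h2
    exact ⟨U, h3, (Finset.coe_subset.2 h1).trans h4⟩
  obtain ⟨W, h1, h2⟩ := select hX (fun _ (W : Set X) => IsOpen W ∧ ∃ S : Set (Set X), S.Finite ∧
    ∀ F : Finset X, (F : Set X) ⊆ W → F.card ≤ k → ∃ a ∈ S, a ∈ C ∧ (F : Set X) ⊆ id a)
    (fun _ W => W) id tendsto_id (fun _ _ h => h.1) fun _ E _ => by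
      obtain ⟨W, h1, h2, h3⟩ := fatten (· ∈ C) id k hC.1 hc E
      exact ⟨W, ⟨h1, h3⟩, h2⟩
  choose S hS hS' using fun n => (h1 n).2
  have h3 : ∀ F : Finset X, F.card ≤ k → ∃ U ∈ (⋃ n, S n) ∩ C, (F : Set X) ⊆ U := fun F hF => by
    obtain ⟨n, hn⟩ := ((eventually_all_finset F).2 fun x _ => h2 x).exists
    obtain ⟨U, h4, h5, h6⟩ := hS' n F hn hF
    exact ⟨U, ⟨mem_iUnion.2 ⟨n, h4⟩, h5⟩, h6⟩
  obtain ⟨e, he⟩ := ((countable_iUnion fun n => (hS n).countable).mono
    (inter_subset_left (t := C))).exists_eq_range (by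
      obtain ⟨U, h, -⟩ := h3 ∅ (by simp)
      exact ⟨U, h⟩)
  refine ⟨e, fun i => (he.ge ⟨i, rfl⟩).2, fun F hF => ?_⟩
  obtain ⟨U, h4, h5⟩ := h3 F hF
  obtain ⟨i, rfl⟩ := he.le h4
  exact ⟨i, h5⟩

def O (U : List ℕ → Set X) (t s : List ℕ) : Set X :=
  ⋂ r ∈ {r | r <:+ t ∧ s.length < r.length}, U r

lemma branch [Infinite X] (hX : IsStrongGamma X) (U : List ℕ → Set X) (ho : ∀ s, IsOpen (U s))
    (hc : ∀ s (F : Finset X), F.card ≤ s.length + 1 → ∃ i, (F : Set X) ⊆ U (i :: s)) :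
    ∃ f : ℕ → List ℕ, f 0 = [] ∧ (∀ n, ∃ i, f (n + 1) = i :: f n) ∧
      IsGamma fun n => U (f n) := by
  classical
  have hO : ∀ t s, IsOpen (O U t s) := fun t s =>
    (t.tails.finite_toSet.subset fun r hr => (List.mem_tails _ _).2 hr.1).isOpen_biInter
      fun r _ => ho r
  have hext : ∀ s m (F : Finset X), F.card ≤ s.length + 1 →
      ∃ t, (s <:+ t ∧ t.length = s.length + m) ∧ (F : Set X) ⊆ O U t s := fun s m F hF => by
    induction m with
    | zero =>
      exact ⟨s, ⟨List.suffix_rfl, rfl⟩, subset_iInter₂ fun r hr =>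
        absurd hr.1.length_le (not_le.2 hr.2)⟩
    | succ m ih =>
      obtain ⟨t, ⟨h1, h2⟩, h3⟩ := ih
      obtain ⟨i, hi⟩ := hc t F (by omega)
      refine ⟨i :: t, ⟨h1.trans (List.suffix_cons _ _), by simp [h2, add_assoc]⟩,
        subset_iInter₂ fun r hr => ?_⟩
      rcases List.suffix_cons_iff.1 hr.1 with rfl | h
      · exact hi
      · exact h3.trans (biInter_subset_of_mem ⟨h, hr.2⟩)
  have hG : ∀ m, {s : List ℕ | Encodable.encode s < m}.Finite := fun m =>
    (finite_lt_nat m).preimage Encodable.encode_injective.injOn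
  obtain ⟨W, h1, hW⟩ := select hX (fun m (W : Set X) => IsOpen W ∧ ∃ g, m < g ∧ ∀ s : List ℕ,
    Encodable.encode s < m → ∀ F : Finset X, (F : Set X) ⊆ W → F.card ≤ s.length + 1 →
      ∃ t, Encodable.encode t < g ∧ (s <:+ t ∧ t.length = s.length + m) ∧ (F : Set X) ⊆ O U t s)
    (fun _ W => W) id tendsto_id (fun _ _ h => h.1) fun m E _ => by
      choose W h1 h2 S h3 h4 using fun s : List ℕ =>
        fatten _ (fun t => O U t s) _ (fun t _ => hO t s) (hext s m) E
      obtain ⟨g, hg⟩ := (((hG m).biUnion fun s _ => h3 s).image Encodable.encode).bddAbove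
      refine ⟨⋂ s ∈ {s : List ℕ | Encodable.encode s < m}, W s, ⟨(hG m).isOpen_biInter
        fun s _ => h1 s, max m g + 1, by omega, fun s hs F hF hk => ?_⟩,
        subset_iInter₂ fun s _ => h2 s⟩
      obtain ⟨t, h5, h6⟩ := h4 s F (hF.trans (biInter_subset_of_mem hs)) hk
      have := hg ⟨t, mem_biUnion hs h5, rfl⟩
      exact ⟨t, by omega, h6⟩
  choose g hg hg' using fun m => (h1 m).2
  let k : ℕ → ℕ := fun n => sInf {m | n ≤ g m}
  have hk1 : ∀ m, k (g m) ≤ m := fun m => Nat.sInf_le (le_refl (g m))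
  have hk : Tendsto k atTop atTop := tendsto_atTop.2 fun J => by
    filter_upwards [eventually_gt_atTop ((Finset.range J).sup g)] with n hn
    by_contra h
    have h2 : n ≤ g (k n) := Nat.sInf_mem (s := {m | n ≤ g m}) ⟨n, (hg n).le⟩
    have := Finset.le_sup (f := g) (Finset.mem_range.2 (not_le.1 h))
    omega
  obtain ⟨a, ha, hγ⟩ := select hX (fun n (a : ℕ × (List ℕ → List ℕ)) => n ≤ a.1 ∧ ∀ s,
      Encodable.encode s < a.1 → k n ≤ s.length + 1 → Encodable.encode (a.2 s) < g a.1 ∧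
        s <:+ a.2 s ∧ (a.2 s).length = s.length + a.1)
    (fun n a => ⋂ s ∈ {s | Encodable.encode s < a.1 ∧ k n ≤ s.length + 1}, O U (a.2 s) s) k hk
    (fun n a _ => ((hG a.1).subset fun s hs => hs.1).isOpen_biInter fun s _ => hO _ _)
    fun n F hF => by
      obtain ⟨m, hm, hn⟩ := (((eventually_all_finset F).2 fun x _ => hW x).and
        (eventually_ge_atTop n)).exists
      have : ∀ s : List ℕ, ∃ t, Encodable.encode s < m → k n ≤ s.length + 1 →
          Encodable.encode t < g m ∧ (s <:+ t ∧ t.length = s.length + m) ∧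
            (F : Set X) ⊆ O U t s := fun s => by
        by_cases h : Encodable.encode s < m ∧ k n ≤ s.length + 1
        · obtain ⟨t, ht⟩ := hg' m s h.1 F hm (hF.trans h.2)
          exact ⟨t, fun _ _ => ht⟩
        · exact ⟨s, fun h1 h2 => absurd ⟨h1, h2⟩ h⟩
      choose ρ hρ using this
      exact ⟨(m, ρ), ⟨hn, fun s h1 h2 => ⟨(hρ s h1 h2).1, (hρ s h1 h2).2.1⟩⟩,
        subset_iInter₂ fun s hs => (hρ s hs.1 hs.2).2.2⟩
  let p : ℕ → ℕ × List ℕ := fun j =>
    Nat.rec (1, []) (fun _ q => (g (a q.1).1, (a q.1).2 q.2)) j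
  have hp : ∀ j, p (j + 1) = (g (a (p j).1).1, (a (p j).1).2 (p j).2) := fun j => rfl
  have inv : ∀ j, Encodable.encode (p j).2 < (p j).1 ∧ k (p j).1 ≤ (p j).2.length + 1 := by
    intro j
    induction j with
    | zero =>
      refine ⟨Nat.zero_lt_one, (Nat.sInf_le (s := {m | 1 ≤ g m}) (hg 0)).trans (Nat.zero_le _)⟩
    | succ j ih =>
      obtain ⟨h1, -, h3⟩ := (ha _).2 _ (ih.1.trans_le (ha _).1) ih.2
      rw [hp]
      refine ⟨h1, (hk1 _).trans ?_⟩
      simp only [h3]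
      omega
  have step := fun j => (ha _).2 _ ((inv j).1.trans_le (ha _).1) (inv j).2
  have mono : StrictMono fun j => (p j).1 :=
    strictMono_nat_of_lt_succ fun j => (ha _).1.trans_lt (hg _)
  have suf : ∀ j i, j ≤ i → (p j).2 <:+ (p i).2 := fun j i h => by
    induction h with
    | refl => exact List.suffix_rfl
    | step _ ih => exact ih.trans (step _).2.1
  have len : ∀ j, j ≤ (p j).2.length := fun j => by
    induction j with
    | zero => exact Nat.zero_le _
    | succ j ih =>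
      have h1 := (step j).2.2
      have h2 := (inv j).1.trans_le (ha _).1
      rw [hp]
      simp only [h1]
      omega
  let f : ℕ → List ℕ := fun n => (p n).2.drop ((p n).2.length - n)
  have hf1 : ∀ n, f n <:+ (p n).2 := fun n => List.drop_suffix _ _
  have hf2 : ∀ n, (f n).length = n := fun n => by
    have := len n
    simp only [f, List.length_drop]
    omega
  refine ⟨f, List.length_eq_zero_iff.1 (hf2 0), fun n => ?_, fun x => ?_⟩
  · have h := List.suffix_of_suffix_length_le ((hf1 n).trans (suf _ _ n.le_succ)) (hf1 (n + 1))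
      (by rw [hf2 n, hf2 (n + 1)]; omega)
    obtain ⟨r, hr⟩ := h
    have h2 := congrArg List.length hr
    rw [List.length_append, hf2 n, hf2 (n + 1)] at h2
    obtain ⟨i, rfl⟩ := List.length_eq_one_iff.1 (show r.length = 1 by omega)
    exact ⟨i, hr.symm⟩
  obtain ⟨J, hJ⟩ := eventually_atTop.1 (mono.tendsto_atTop.eventually (hγ x))
  have h3 : ∀ j, J ≤ j → x ∈ O U (p j).2 (p J).2 := fun j h => by
    induction h with
    | refl => exact mem_iInter₂.2 fun r hr => absurd hr.1.length_le (not_le.2 hr.2)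
    | @step j h ih =>
      refine mem_iInter₂.2 fun r hr => ?_
      by_cases hl : (p j).2.length < r.length
      · exact mem_iInter₂.1 (mem_iInter₂.1 (hJ j h) (p j).2
          ⟨(inv j).1.trans_le (ha _).1, (inv j).2⟩) r ⟨hr.1, hl⟩
      · exact mem_iInter₂.1 ih r ⟨List.suffix_of_suffix_length_le hr.1 (step j).2.1
          (not_lt.1 hl), hr.2⟩
  filter_upwards [eventually_gt_atTop (p J).2.length, eventually_ge_atTop J] with n h4 h5
  exact mem_iInter₂.1 (h3 n h5) (f n) ⟨hf1 n, by rwa [hf2]⟩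

theorem result (X : Type*) [TopologicalSpace X] :
    IsStrongGamma X ↔ ¬ ∃ σ : List (Set X) → Set (Set X), OneWins σ := by
  classical
  constructor
  swap
  · intro h C hC
    by_contra hc
    refine h ⟨fun l => C l.length, fun l _ => hC _, fun u hu hg => hc ⟨u, fun n => ?_, hg⟩⟩
    have : ∀ n, (hist u n).length = n := fun n => by induction n <;> simp_all [hist]
    simpa [this] using hu n
  rintro hX ⟨σ, h1, h2⟩
  rcases isEmpty_or_nonempty X with hE | ⟨⟨x0⟩⟩
  · obtain ⟨u, hu, -⟩ := hX (fun _ => ∅) fun n => ⟨by simp, by simp, Subsingleton.elim _ _,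
      fun F hF => by simp [Finset.eq_empty_of_isEmpty F] at hF⟩
    exact hu 0
  rcases finite_or_infinite X with hF | hI
  · have : ∀ n, ∃ h, Legal σ h ∧ h.length = n := fun n => by
      induction n with
      | zero => exact ⟨[], trivial, rfl⟩
      | succ n ih =>
        obtain ⟨h, h3, h4⟩ := ih
        obtain ⟨U, hU, -⟩ := (h1 h h3).2.2.1.ge (mem_univ x0)
        exact ⟨U :: h, ⟨hU, h3⟩, by simp [h4]⟩
    have := Fintype.ofFinite X
    obtain ⟨h, h3, h4⟩ := ‹∀ n, _› (Fintype.card X - 1)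
    have h5 : 0 < Fintype.card X := Fintype.card_pos_iff.2 ⟨x0⟩
    obtain ⟨U, hU, h6⟩ := (h1 h h3).2.2.2 Finset.univ (by rw [h4, Finset.card_univ]; omega)
    rw [Finset.coe_univ, univ_subset_iff] at h6
    exact (h1 h h3).2.1 (h6 ▸ hU)
  choose! e he he' using fun h hh => countable_sub hX (h1 h hh)
  let H : List ℕ → List (Set X) := fun s => List.rec [] (fun i _ h => e h i :: h) s
  have hH : ∀ s, Legal σ (H s) ∧ (H s).length = s.length := fun s => by
    induction s with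
    | nil => exact ⟨trivial, rfl⟩
    | cons i s ih => exact ⟨⟨he _ ih.1 i, ih.1⟩, congrArg (· + 1) ih.2⟩
  obtain ⟨f, f0, f1, f2⟩ := branch hX (fun s => (H s).headD univ) (fun s => by
    cases s with
    | nil => exact isOpen_univ
    | cons i s => exact (h1 _ (hH s).1).1 _ (he _ (hH s).1 i))
    fun s F hF => he' _ (hH s).1 F (by rwa [(hH s).2])
  have h3 : ∀ n, hist (fun n => (H (f (n + 1))).headD univ) n = H (f n) := fun n => by
    induction n with
    | zero => rw [f0]; rfl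
    | succ n ih =>
      obtain ⟨i, hi⟩ := f1 n
      rw [hist, ih, hi]; rfl
  refine h2 (fun n => (H (f (n + 1))).headD univ) (fun n => ?_) fun x =>
    (tendsto_add_atTop_nat 1).eventually (f2 x)
  obtain ⟨i, hi⟩ := f1 n
  rw [h3]
  simp only [hi]
  exact he _ (hH _).1 i

end Pool.Agent.Results.MP_b9e574_gt.StrongGamma
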